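import Pool.Agent.Helper80.CW.DZ

/-!
# PROJECT TOP: the matrix form of the condition `z`

For `0 < u₀` every tangent vector `e` is `w₁ t₁ + w₂ t₂`, `t₁ = (-u₁, u₀, 0)`,
`t₂ = (-u₂, 0, u₀)`, `w₁ = e₁/u₀`, `w₂ = e₂/u₀`. The condition `0 ≤ Qs - 4 Σ e_j e_l N_jl` for unit
tangent `e` follows from the positivity of the form `P11 w₁² + 2 P12 w₁ w₂ + P22 w₂²` with the three
ordinary lists `pf11`, `pf12`, `pf22`.
-/

set_option autoImplicit false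

namespace Helper29.TOP

open Helper80.CW.DL

/-- multiplication by `c u_i u_j` -/
def mm (c : ℤ) (i j : Fin 3) (l : List Mo) : List Mo := l.map fun m => sc c (mu i (mu j m))

/-- `P11` -/
def pf11 (Qs : List Mo) (Nn : Fin 3 → Fin 3 → List Mo) : List Mo :=
  mm 1 0 0 Qs ++ mm 1 1 1 Qs ++ mm (-4) 1 1 (Nn 0 0) ++ mm 4 0 1 (Nn 0 1 ++ Nn 1 0) ++
    mm (-4) 0 0 (Nn 1 1)

/-- `P12` -/
def pf12 (Qs : List Mo) (Nn : Fin 3 → Fin 3 → List Mo) : List Mo :=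
  mm 1 1 2 Qs ++ mm (-4) 1 2 (Nn 0 0) ++ mm 2 0 1 (Nn 0 2 ++ Nn 2 0) ++
    mm 2 0 2 (Nn 0 1 ++ Nn 1 0) ++ mm (-2) 0 0 (Nn 1 2 ++ Nn 2 1)

/-- `P22` -/
def pf22 (Qs : List Mo) (Nn : Fin 3 → Fin 3 → List Mo) : List Mo :=
  mm 1 0 0 Qs ++ mm 1 2 2 Qs ++ mm (-4) 2 2 (Nn 0 0) ++ mm 4 0 2 (Nn 0 2 ++ Nn 2 0) ++
    mm (-4) 0 0 (Nn 2 2)

/-- the coordinates of a real vector -/
def cx (u : V3) : Fin 3 → ℝ
  | 0 => u.1
  | 1 => u.2.1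
  | 2 => u.2.2

theorem vm_mu3 (i : Fin 3) (m : Mo) (u p : V3) : vm (mu i m) u p = cx u i * vm m u p := by
  obtain ⟨c, ⟨a0, a1, a2⟩, ⟨b0, b1, b2⟩⟩ := m
  fin_cases i <;>
  · simp only [vm, mu, cx]
    ring

theorem vl_mm (c : ℤ) (i j : Fin 3) (l : List Mo) (u p : V3) :
    vl (mm c i j l) u p = (c : ℝ) * (cx u i * cx u j) * vl l u p := by
  induction l with
  | nil => simp [mm, vl]
  | cons m l ih =>
    have e : mm c i j (m :: l) = sc c (mu i (mu j m)) :: mm c i j l := rfl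
    rw [e, vl_cons, vl_cons, ih, vm_sc, vm_mu3, vm_mu3]
    ring

section
variable (Qs : List Mo) (Nn : Fin 3 → Fin 3 → List Mo) (u p : V3)

theorem vl_pf11 : vl (pf11 Qs Nn) u p = (u.1 ^ 2 + u.2.1 ^ 2) * vl Qs u p
    - 4 * (u.2.1 ^ 2 * vl (Nn 0 0) u p - u.1 * u.2.1 * (vl (Nn 0 1) u p + vl (Nn 1 0) u p)
      + u.1 ^ 2 * vl (Nn 1 1) u p) := by
  unfold pf11
  simp only [vl_append, vl_mm, cx]
  push_cast
  ring

theorem vl_pf12 : vl (pf12 Qs Nn) u p = u.2.1 * u.2.2 * vl Qs u p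
    - 2 * (2 * (u.2.1 * u.2.2) * vl (Nn 0 0) u p
      - u.1 * u.2.2 * (vl (Nn 0 1) u p + vl (Nn 1 0) u p)
      - u.1 * u.2.1 * (vl (Nn 0 2) u p + vl (Nn 2 0) u p)
      + u.1 ^ 2 * (vl (Nn 1 2) u p + vl (Nn 2 1) u p)) := by
  unfold pf12
  simp only [vl_append, vl_mm, cx]
  push_cast
  ring

theorem vl_pf22 : vl (pf22 Qs Nn) u p = (u.1 ^ 2 + u.2.2 ^ 2) * vl Qs u p
    - 4 * (u.2.2 ^ 2 * vl (Nn 0 0) u p - u.1 * u.2.2 * (vl (Nn 0 2) u p + vl (Nn 2 0) u p)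
      + u.1 ^ 2 * vl (Nn 2 2) u p) := by
  unfold pf22
  simp only [vl_append, vl_mm, cx]
  push_cast
  ring

/-- the quadratic form at the tangent vector `w₁ t₁ + w₂ t₂` -/
theorem pf_form (w1 w2 : ℝ) (e : Fin 3 → ℝ) (h0 : e 0 = -(u.2.1 * w1) - u.2.2 * w2)
    (h1 : e 1 = u.1 * w1) (h2 : e 2 = u.1 * w2) :
    vl (pf11 Qs Nn) u p * w1 ^ 2 + 2 * vl (pf12 Qs Nn) u p * (w1 * w2)
      + vl (pf22 Qs Nn) u p * w2 ^ 2 =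
    (e 0 ^ 2 + e 1 ^ 2 + e 2 ^ 2) * vl Qs u p
      - 4 * ∑ j, ∑ l, e j * e l * vl (Nn j l) u p := by
  rw [vl_pf11, vl_pf12, vl_pf22]
  simp only [Fin.sum_univ_three]
  rw [h0, h1, h2]
  ring

end

/-- **the condition for all unit tangent vectors from the 2 × 2 form**, finite families -/
theorem pf_cond {ι : Type*} (I : Finset ι) (θ : ι → ℝ) (Qs : ι → List Mo)
    (Nn : ι → Fin 3 → Fin 3 → List Mo) {u p : V3} (hu : 0 < u.1)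
    (H : ∀ w1 w2 : ℝ, 0 ≤ ∑ v ∈ I, θ v * (vl (pf11 (Qs v) (Nn v)) u p * w1 ^ 2
      + 2 * vl (pf12 (Qs v) (Nn v)) u p * (w1 * w2) + vl (pf22 (Qs v) (Nn v)) u p * w2 ^ 2))
    {e : Fin 3 → ℝ} (ht : e 0 * u.1 + e 1 * u.2.1 + e 2 * u.2.2 = 0)
    (hn : e 0 ^ 2 + e 1 ^ 2 + e 2 ^ 2 = 1) :
    0 ≤ ∑ v ∈ I, θ v * (vl (Qs v) u p - 4 * ∑ j, ∑ l, e j * e l * vl (Nn v j l) u p) := by
  have h := H (e 1 / u.1) (e 2 / u.1)
  refine h.trans (le_of_eq ?_)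
  refine Finset.sum_congr rfl fun v _ => ?_
  congr 1
  have h0 : e 0 = -(u.2.1 * (e 1 / u.1)) - u.2.2 * (e 2 / u.1) := by
    field_simp
    linarith
  rw [pf_form (Qs v) (Nn v) u p (e 1 / u.1) (e 2 / u.1) e h0 (by field_simp) (by field_simp), hn,
    one_mul]

/-- the same for one list -/
theorem pf_cond1 (Qs : List Mo) (Nn : Fin 3 → Fin 3 → List Mo) {u p : V3} (hu : 0 < u.1)
    (H : ∀ w1 w2 : ℝ, 0 ≤ vl (pf11 Qs Nn) u p * w1 ^ 2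
      + 2 * vl (pf12 Qs Nn) u p * (w1 * w2) + vl (pf22 Qs Nn) u p * w2 ^ 2)
    {e : Fin 3 → ℝ} (ht : e 0 * u.1 + e 1 * u.2.1 + e 2 * u.2.2 = 0)
    (hn : e 0 ^ 2 + e 1 ^ 2 + e 2 ^ 2 = 1) :
    0 ≤ vl Qs u p - 4 * ∑ j, ∑ l, e j * e l * vl (Nn j l) u p := by
  have h := pf_cond (Finset.univ : Finset Unit) (fun _ => 1) (fun _ => Qs) (fun _ => Nn) hu
    (fun w1 w2 => by simpa using H w1 w2) ht hn
  simpa using h

end Helper29.TOP
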